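import Pool.Agent.H60.DR.Base

/-!
# No better rate

Adapted from the library module `W805/DWMain` (the case `g = 1`, `α = 1 / 2`).
-/

set_option autoImplicit false

open Filter Topology Set
open scoped InnerProductSpace ENNReal

namespace Pool.Agent.H9.DR

open Pool.Agent.W805.DW
open Pool.Agent.H60.DR (evg Ag Sg dn gg aa ww mu mus gs StPar StNot)

/-- `z = -δ + i ω` -/
noncomputable def zz (α d : ℝ) : ℂ := -(d : ℂ) + Complex.I * (Real.sqrt (ww α d) : ℂ)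

/-- `s = a - 2 i δ ω` -/
noncomputable def ss (α d : ℝ) : ℂ := (aa d : ℂ) - 2 * Complex.I * d * (Real.sqrt (ww α d) : ℂ)

lemma dn_pos (n : ℕ) : 0 < dn n := by unfold dn; positivity

lemma dn_le (n : ℕ) : dn n ≤ 1 / 100 := by
  unfold dn
  rw [inv_le_comm₀ (by positivity) (by norm_num)]
  have : (0 : ℝ) ≤ n := Nat.cast_nonneg n
  linarith

section
variable {α d : ℝ} (h0 : 0 < d) (h1 : d ≤ 1 / 100) (hw : 0 < ww α d)

include h0 h1 in
lemma aa_eq : aa d * (1 - 4 * d) = -(2 * d ^ 2) := by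
  unfold aa
  exact div_mul_cancel₀ _ (by linarith)

include h0 h1 in
lemma aa_nonpos : aa d ≤ 0 := by
  unfold aa
  apply div_nonpos_of_nonpos_of_nonneg <;> nlinarith

include h0 h1 in
lemma ww_eq : ww α d * (2 * d * (1 - 2 * d)) = gg α d ^ 2 - aa d ^ 2 + d * aa d := by
  unfold ww
  have h2 : (0 : ℝ) < 1 - 2 * d := by linarith
  exact div_mul_cancel₀ _ (by positivity)

include hw in
lemma sqrt_sq : (Real.sqrt (ww α d) : ℂ) ^ 2 = (ww α d : ℂ) := by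
  rw [← Complex.ofReal_pow, Real.sq_sqrt hw.le]

include hw in
lemma zz_sq : zz α d ^ 2 + (mu α d : ℂ) = ss α d := by
  have h := sqrt_sq hw
  have hI : Complex.I ^ 2 = -1 := Complex.I_sq
  have : zz α d ^ 2 = (d : ℂ) ^ 2 - 2 * Complex.I * d * (Real.sqrt (ww α d) : ℂ) +
      Complex.I ^ 2 * (Real.sqrt (ww α d) : ℂ) ^ 2 := by
    unfold zz; ring
  rw [this, h, hI]
  unfold mu ss
  push_cast
  ring

include h0 h1 hw in
lemma ss_eq : ss α d * (ss α d + zz α d) = (gg α d : ℂ) ^ 2 := by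
  have h := sqrt_sq hw
  have hI : Complex.I ^ 2 = -1 := Complex.I_sq
  have e1 : ((aa d * (1 - 4 * d) : ℝ) : ℂ) = ((-(2 * d ^ 2) : ℝ) : ℂ) := by rw [aa_eq h0 h1]
  have e2 : ((ww α d * (2 * d * (1 - 2 * d)) : ℝ) : ℂ) =
      ((gg α d ^ 2 - aa d ^ 2 + d * aa d : ℝ) : ℂ) := by
    rw [ww_eq h0 h1]
  push_cast at e1 e2
  have : ss α d * (ss α d + zz α d) = ((aa d : ℂ) ^ 2 - d * aa d) +
      (4 * (d : ℂ) ^ 2 - 2 * d) * (Complex.I ^ 2 * (Real.sqrt (ww α d) : ℂ) ^ 2) +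
      Complex.I * (Real.sqrt (ww α d) : ℂ) * (aa d * (1 - 4 * d) + 2 * d ^ 2) := by
    unfold zz ss; ring
  rw [this, h, hI, e1]
  linear_combination e2

lemma zz_re : (zz α d).re = -d := by
  unfold zz; simp

include hw in
lemma zz_normsq : ‖zz α d‖ ^ 2 = d ^ 2 + ww α d := by
  rw [← Complex.normSq_eq_norm_sq, Complex.normSq_apply]
  have h1' : (zz α d).re = -d := zz_re
  have h2 : (zz α d).im = Real.sqrt (ww α d) := by unfold zz; simp
  rw [h1', h2, Real.mul_self_sqrt hw.le]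
  ring

end

/-- the size of the parameters -/
def PF (α : ℝ) : Prop := Tendsto (mus α) atTop atTop ∧ (∀ n, 16 ≤ mus α n) ∧
  (∀ n, 1 ≤ gs α n) ∧ (∀ n, 16 * (gs α n) ^ 2 ≤ mus α n) ∧
  (∀ n, 1 / 2 * (mus α n) ^ (-(1 / (2 * α))) ≤ (gs α n) ^ 2 / mus α n) ∧
  ∀ n, mus α n ≤ (dn n) ^ (-(2 * α)) ∧ 0 < ww α (dn n) ∧ ww α (dn n) ≤ (dn n) ^ (-(2 * α))

section
variable {α : ℝ} (hP : PF α)
include hP

lemma wpos (n : ℕ) : 0 < ww α (dn n) := (hP.2.2.2.2.2 n).2.1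

lemma zz_norm_ge (n : ℕ) : 1 ≤ ‖zz α (dn n)‖ := by
  have h := zz_normsq (wpos hP n)
  have h2 := aa_nonpos (dn_pos n) (dn_le n)
  have h3 : 16 ≤ mus α n := hP.2.1 n
  have h4 : mus α n = aa (dn n) + ww α (dn n) - dn n ^ 2 := rfl
  by_contra hc
  push Not at hc
  nlinarith [norm_nonneg (zz α (dn n)), sq_nonneg (dn n)]

lemma total_le (n : ℕ) : mus α n + gs α n + 1 + ‖zz α (dn n)‖ ^ 2 ≤ 4 * ((dn n)⁻¹ ^ α) ^ 2 := by
  rw [zz_normsq (wpos hP n)]
  have e : ((dn n)⁻¹ ^ α) ^ 2 = (dn n) ^ (-(2 * α)) := by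
    rw [← Real.rpow_natCast, ← Real.rpow_mul (inv_nonneg.2 (dn_pos n).le),
      Real.inv_rpow (dn_pos n).le, ← Real.rpow_neg (dn_pos n).le]
    congr 1
    push_cast
    ring
  rw [e]
  have h1 := hP.2.1 n
  have h2 := hP.2.2.1 n
  have h3 := hP.2.2.2.1 n
  obtain ⟨h4, -, h5⟩ := hP.2.2.2.2.2 n
  have h6 := dn_pos n
  have h7 := dn_le n
  nlinarith

end

/-! ### The eigenvectors -/

lemma evg_true (μ g : ℕ → ℝ) (n : ℕ) : evg μ g (n, true) = μ n + g n := by simp [evg]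
lemma evg_false (μ g : ℕ → ℝ) (n : ℕ) : evg μ g (n, false) = μ n - g n := by simp [evg]

/-- the eigenvector in the block `n` -/
noncomputable def wv (α : ℝ) (n : ℕ) : L2 (ℕ × Bool) :=
  lp.single 2 (n, true) ((gs α n : ℂ) - ss α (dn n)) +
    lp.single 2 (n, false) (-((gs α n : ℂ) + ss α (dn n)))

lemma wv_true (α : ℝ) (n : ℕ) :
    (wv α n : L2 (ℕ × Bool)) (n, true) = (gs α n : ℂ) - ss α (dn n) := by
  simp [wv]

lemma wv_false (α : ℝ) (n : ℕ) :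
    (wv α n : L2 (ℕ × Bool)) (n, false) = -((gs α n : ℂ) + ss α (dn n)) := by
  simp [wv]

lemma wv_ne (α : ℝ) (n m : ℕ) (b : Bool) (h : m ≠ n) : (wv α n : L2 (ℕ × Bool)) (m, b) = 0 := by
  simp [wv, h]

lemma wv_mem (α : ℝ) (n : ℕ) (d : ℕ × Bool → ℝ) : wv α n ∈ (dop d).domain :=
  Submodule.add_mem _ (single_mem d _ _) (single_mem d _ _)

/-- `A` -/
noncomputable def AA (α : ℝ) : L2 (ℕ × Bool) →ₗ.[ℂ] L2 (ℕ × Bool) := Ag (mus α) (gs α)

/-- `A^{1/2}` -/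
noncomputable def SS (α : ℝ) : L2 (ℕ × Bool) →ₗ.[ℂ] L2 (ℕ × Bool) := Sg (mus α) (gs α)

lemma AA_wv (α : ℝ) (n : ℕ) (i : ℕ × Bool) :
    (AA α ⟨wv α n, wv_mem α n _⟩ : L2 (ℕ × Bool)) i = (evg (mus α) (gs α) i : ℂ) * wv α n i := rfl

/-- the eigenvector as an element of `D(A^{1/2})` -/
noncomputable def wS (α : ℝ) (n : ℕ) : (SS α).domain := ⟨wv α n, wv_mem α n _⟩

section
variable {α : ℝ} (hP : PF α)
include hP

lemma wv_ne_zero (n : ℕ) : wv α n ≠ 0 := by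
  intro h
  have h1 := wv_true α n
  have h2 := wv_false α n
  rw [h] at h1 h2
  simp only [lp.coeFn_zero, Pi.zero_apply] at h1 h2
  have h3 : (2 : ℂ) * (gs α n : ℂ) = 0 := by linear_combination h2 - h1
  have h4 : (gs α n : ℂ) = 0 := by simpa using h3
  have h5 : gs α n = 0 := by exact_mod_cast h4
  have h6 := hP.2.2.1 n
  linarith

lemma wv_eq (n : ℕ) : (zz α (dn n)) ^ 2 • wv α n =
    -(AA α ⟨wv α n, wv_mem α n _⟩) - zz α (dn n) • B (G (wv α n)) := by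
  have e1 := zz_sq (wpos hP n)
  have e2 := ss_eq (dn_pos n) (dn_le n) (wpos hP n)
  have hg : gs α n = gg α (dn n) := rfl
  rw [← hg] at e2
  ext ⟨m, b⟩
  rw [lp.coeFn_sub, Pi.sub_apply, lp.coeFn_neg, Pi.neg_apply, lp.coeFn_smul, lp.coeFn_smul,
    Pi.smul_apply, Pi.smul_apply, BG_apply, AA_wv, smul_eq_mul, smul_eq_mul]
  by_cases hm : m = n
  · subst hm
    cases b
    · rw [wv_true, wv_false, evg_false]
      have e3 : ((mus α m - gs α m : ℝ) : ℂ) = (mu α (dn m) : ℂ) - (gs α m : ℂ) := by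
        unfold mus; push_cast; ring
      rw [e3]
      linear_combination (-((gs α m : ℂ) + ss α (dn m))) * e1 - e2
    · rw [wv_true, wv_false, evg_true]
      have e3 : ((mus α m + gs α m : ℝ) : ℂ) = (mu α (dn m) : ℂ) + (gs α m : ℂ) := by
        unfold mus; push_cast; ring
      rw [e3]
      linear_combination ((gs α m : ℂ) - ss α (dn m)) * e1 - e2
  · rw [wv_ne _ _ _ _ hm, wv_ne _ _ _ _ hm, wv_ne _ _ _ _ hm]
    simp

lemma norm_SwS (n : ℕ) : ‖SS α (wS α n)‖ ^ 2 ≤ (mus α n + gs α n) * ‖wv α n‖ ^ 2 := by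
  have hg : 0 ≤ gs α n := zero_le_one.trans (hP.2.2.1 n)
  have hpos : 0 ≤ mus α n + gs α n := by
    have := hP.2.1 n
    linarith
  have h := norm_dop_le (fun i => Real.sqrt (evg (mus α) (gs α) i)) (wS α n)
    (C := Real.sqrt (mus α n + gs α n)) (Real.sqrt_nonneg _) (by
      rintro ⟨m, b⟩ hne
      have hm : m = n := by
        by_contra hm
        exact hne (wv_ne α n m b hm)
      subst hm
      rw [abs_of_nonneg (Real.sqrt_nonneg _)]
      apply Real.sqrt_le_sqrt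
      cases b
      · rw [evg_false]; linarith
      · rw [evg_true])
  calc ‖SS α (wS α n)‖ ^ 2 ≤ (Real.sqrt (mus α n + gs α n) * ‖wv α n‖) ^ 2 :=
        pow_le_pow_left₀ (norm_nonneg _) h 2
    _ = (mus α n + gs α n) * ‖wv α n‖ ^ 2 := by rw [mul_pow, Real.sq_sqrt hpos]

end

/-! ### The solutions `e^{zt} w` -/

lemma dsol {E : Type} [NormedAddCommGroup E] [NormedSpace ℂ E] (z c : ℂ) (w : E) (t : ℝ) :
    HasDerivAt (fun s : ℝ => (c * Complex.exp (z * s)) • w) ((z * (c * Complex.exp (z * t))) • w) t := by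
  have e2 : HasDerivAt (fun s : ℝ => z * (s : ℂ)) (z * 1) t :=
    (Complex.ofRealCLM.hasDerivAt).const_mul _
  rw [mul_one] at e2
  have e3 := (e2.cexp.const_mul c).smul_const w
  exact e3.congr_deriv (by congr 1; ring)

/-- `u(t) = e^{zt} w` -/
noncomputable def uu (α : ℝ) (n : ℕ) (t : ℝ) : (SS α).domain :=
  (1 * Complex.exp (zz α (dn n) * t)) • wS α n

/-- `v(t) = z e^{zt} w` -/
noncomputable def vv (α : ℝ) (n : ℕ) (t : ℝ) : (SS α).domain :=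
  (zz α (dn n) * Complex.exp (zz α (dn n) * t)) • wS α n

lemma AA_smul (α : ℝ) (n : ℕ) (c : ℂ) (h : c • wv α n ∈ (AA α).domain) :
    AA α ⟨c • wv α n, h⟩ = c • AA α ⟨wv α n, wv_mem α n _⟩ :=
  (AA α).map_smul c ⟨wv α n, wv_mem α n _⟩

lemma uu_dom (α : ℝ) (n : ℕ) (t : ℝ) : (uu α n t : L2 (ℕ × Bool)) ∈ (AA α).domain :=
  Submodule.smul_mem _ _ (wv_mem α n _)

section
variable {α : ℝ} (hP : PF α)
include hP

lemma isSol (n : ℕ) : IsWaveSol (AA α) (SS α) B (uu α n) (vv α n) where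
  dom := fun t _ => uu_dom α n t
  du := by
    intro t _
    have := dsol (zz α (dn n)) 1 (wv α n) t
    exact (this.congr_deriv (by
      show (zz α (dn n) * (1 * Complex.exp (zz α (dn n) * t))) • wv α n =
        (zz α (dn n) * Complex.exp (zz α (dn n) * t)) • wv α n
      congr 1; ring)).hasDerivWithinAt
  dSu := by
    intro t _
    have := dsol (zz α (dn n)) 1 (SS α (wS α n)) t
    have h2 : (fun s : ℝ => SS α (uu α n s)) =
        fun s : ℝ => (1 * Complex.exp (zz α (dn n) * s)) • SS α (wS α n) := by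
      funext s
      exact (SS α).map_smul _ _
    rw [h2]
    refine (this.congr_deriv ?_).hasDerivWithinAt
    have h3 : SS α (vv α n t) = (zz α (dn n) * Complex.exp (zz α (dn n) * t)) • SS α (wS α n) :=
      (SS α).map_smul _ _
    rw [h3]
    congr 1; ring
  dv := by
    intro t ht
    have := dsol (zz α (dn n)) (zz α (dn n)) (wv α n) t
    refine (this.congr_deriv ?_).hasDerivWithinAt
    have h1 : AA α ⟨(uu α n t : L2 (ℕ × Bool)), uu_dom α n t⟩ =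
        (1 * Complex.exp (zz α (dn n) * t)) • AA α ⟨wv α n, wv_mem α n _⟩ := AA_smul α n _ _
    rw [h1, adjB]
    have h2 : ((vv α n t : (SS α).domain) : L2 (ℕ × Bool)) =
        (zz α (dn n) * Complex.exp (zz α (dn n) * t)) • wv α n := rfl
    rw [h2, map_smul, map_smul]
    have h3 := congrArg (fun x => Complex.exp (zz α (dn n) * t) • x) (wv_eq hP n)
    simp only [smul_smul, smul_sub, smul_neg] at h3
    rw [one_mul, mul_comm (zz α (dn n)) (Complex.exp _), ← h3]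
    congr 1; ring

lemma graph_eq (n : ℕ) : graphNrm (AA α) (SS α) B (uu α n 0) (uu_dom α n 0) (vv α n 0) =
    (1 + ‖zz α (dn n)‖) *
      Real.sqrt (‖SS α (wS α n)‖ ^ 2 + ‖wv α n‖ ^ 2 + ‖zz α (dn n)‖ ^ 2 * ‖wv α n‖ ^ 2) := by
  have hu : uu α n 0 = wS α n := by
    simp [uu]
  have hv : vv α n 0 = zz α (dn n) • wS α n := by
    simp [vv]
  have hu' : (uu α n 0 : L2 (ℕ × Bool)) = wv α n := by rw [hu]; rfl
  have hA : AA α ⟨(uu α n 0 : L2 (ℕ × Bool)), uu_dom α n 0⟩ = AA α ⟨wv α n, wv_mem α n _⟩ := by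
    congr 1
    exact Subtype.ext hu'
  have hv' : ((vv α n 0 : (SS α).domain) : L2 (ℕ × Bool)) = zz α (dn n) • wv α n := by
    rw [hv]; rfl
  have hd : -(AA α ⟨(uu α n 0 : L2 (ℕ × Bool)), uu_dom α n 0⟩) -
      B (ContinuousLinearMap.adjoint B (vv α n 0 : L2 (ℕ × Bool))) = zz α (dn n) ^ 2 • wv α n := by
    rw [hA, adjB, hv', map_smul, map_smul, wv_eq hP]
  have hSv : SS α (vv α n 0) = zz α (dn n) • SS α (wS α n) := by
    rw [hv]; exact (SS α).map_smul _ _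
  unfold graphNrm
  rw [hd]
  unfold nrm
  rw [hSv, hv', hu', hu, norm_smul, norm_smul, norm_smul, norm_pow]
  have : (‖zz α (dn n)‖ * ‖SS α (wS α n)‖) ^ 2 + (‖zz α (dn n)‖ * ‖wv α n‖) ^ 2 +
      (‖zz α (dn n)‖ ^ 2 * ‖wv α n‖) ^ 2 =
      ‖zz α (dn n)‖ ^ 2 *
        (‖SS α (wS α n)‖ ^ 2 + ‖wv α n‖ ^ 2 + ‖zz α (dn n)‖ ^ 2 * ‖wv α n‖ ^ 2) := by ring
  rw [this, Real.sqrt_mul (by positivity), Real.sqrt_sq (norm_nonneg _), mul_pow]
  ring

omit hP in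
lemma semi_ge (n : ℕ) (t : ℝ) :
    ‖zz α (dn n)‖ * Real.exp (-(dn n * t)) * ‖wv α n‖ ≤
      semi (SS α) (uu α n t) (vv α n t : L2 (ℕ × Bool)) := by
  have hv' : ((vv α n t : (SS α).domain) : L2 (ℕ × Bool)) =
      (zz α (dn n) * Complex.exp (zz α (dn n) * t)) • wv α n := rfl
  unfold semi
  rw [hv', norm_smul, norm_mul, Complex.norm_exp]
  have : (zz α (dn n) * (t : ℂ)).re = -(dn n * t) := by
    rw [Complex.re_mul_ofReal, zz_re]; ring
  rw [this]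
  apply Real.le_sqrt_of_sq_le
  have := sq_nonneg ‖SS α (uu α n t)‖
  linarith

lemma key_ineq (f : ℝ → ℝ) (C : ℝ)
    (h : ∀ (u v : ℝ → (SS α).domain) (h : IsWaveSol (AA α) (SS α) B u v), ∀ t : ℝ, 0 < t →
    semi (SS α) (u t) (v t : L2 (ℕ × Bool)) ≤
      C * f t * graphNrm (AA α) (SS α) B (u 0) (h.dom 0 le_rfl) (v 0))
    (n : ℕ) : Real.exp (-1) ≤ 4 * |C| * |f (dn n)⁻¹ * (dn n)⁻¹ ^ α| := by
  have hd := dn_pos n
  have hw : 0 < ‖wv α n‖ := norm_pos_iff.2 (wv_ne_zero hP n)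
  have hz := zz_norm_ge hP n
  have hr : 0 ≤ (dn n)⁻¹ ^ α := Real.rpow_nonneg (inv_nonneg.2 hd.le) _
  have h1 := h (uu α n) (vv α n) (isSol hP n) (dn n)⁻¹ (by positivity)
  have h2 := semi_ge (α := α) n (dn n)⁻¹
  have hg : graphNrm (AA α) (SS α) B (uu α n 0) ((isSol hP n).dom 0 le_rfl) (vv α n 0) =
    (1 + ‖zz α (dn n)‖) *
      Real.sqrt (‖SS α (wS α n)‖ ^ 2 + ‖wv α n‖ ^ 2 + ‖zz α (dn n)‖ ^ 2 * ‖wv α n‖ ^ 2) :=
    graph_eq hP n
  rw [hg] at h1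
  rw [mul_inv_cancel₀ hd.ne'] at h2
  have h3 : Real.sqrt (‖SS α (wS α n)‖ ^ 2 + ‖wv α n‖ ^ 2 + ‖zz α (dn n)‖ ^ 2 * ‖wv α n‖ ^ 2) ≤
      2 * (dn n)⁻¹ ^ α * ‖wv α n‖ := by
    apply Real.sqrt_le_iff.2
    refine ⟨by positivity, ?_⟩
    have h4 := norm_SwS hP n
    have h5 := total_le hP n
    have h7 := mul_le_mul_of_nonneg_right h5 (sq_nonneg ‖wv α n‖)
    have e : (2 * (dn n)⁻¹ ^ α * ‖wv α n‖) ^ 2 = 4 * ((dn n)⁻¹ ^ α) ^ 2 * ‖wv α n‖ ^ 2 := by ring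
    rw [e]
    linarith
  have h8 : ‖zz α (dn n)‖ * Real.exp (-1) * ‖wv α n‖ ≤
      |C| * |f (dn n)⁻¹| * ((2 * ‖zz α (dn n)‖) * (2 * (dn n)⁻¹ ^ α * ‖wv α n‖)) := by
    refine h2.trans (h1.trans ?_)
    have h9 : C * f (dn n)⁻¹ ≤ |C| * |f (dn n)⁻¹| := by
      rw [← abs_mul]; exact le_abs_self _
    calc _ ≤ |C| * |f (dn n)⁻¹| * ((1 + ‖zz α (dn n)‖) *
          Real.sqrt (‖SS α (wS α n)‖ ^ 2 + ‖wv α n‖ ^ 2 + ‖zz α (dn n)‖ ^ 2 * ‖wv α n‖ ^ 2)) :=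
          mul_le_mul_of_nonneg_right h9 (by positivity)
      _ ≤ _ := by
          apply mul_le_mul_of_nonneg_left _ (by positivity)
          exact mul_le_mul (by linarith) h3 (Real.sqrt_nonneg _) (by positivity)
  rw [abs_mul, abs_of_nonneg hr]
  have h11 : 0 < ‖zz α (dn n)‖ * ‖wv α n‖ := by positivity
  apply le_of_mul_le_mul_right _ h11
  calc Real.exp (-1) * (‖zz α (dn n)‖ * ‖wv α n‖) =
        ‖zz α (dn n)‖ * Real.exp (-1) * ‖wv α n‖ := by ring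
    _ ≤ _ := h8
    _ = _ := by ring

end

lemma dn_inv_tendsto : Tendsto (fun n : ℕ => (dn n)⁻¹) atTop atTop := by
  unfold dn
  simp only [inv_inv]
  apply Tendsto.const_mul_atTop (by norm_num)
  exact tendsto_atTop_add_const_right _ _ tendsto_natCast_atTop_atTop

theorem stNot (h : StPar) : StNot := by
  intro α hα f hf
  have hP : PF α := h α hα
  rintro ⟨C, hC⟩
  have h1 := key_ineq hP f C hC
  have h2 : Tendsto (fun n : ℕ => 4 * |C| * |f (dn n)⁻¹ * (dn n)⁻¹ ^ α|) atTop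
      (𝓝 (4 * |C| * |0|)) := ((hf.comp dn_inv_tendsto).abs).const_mul _
  rw [abs_zero, mul_zero] at h2
  have h3 := ge_of_tendsto' h2 h1
  exact absurd h3 (not_le.2 (Real.exp_pos _))

end Pool.Agent.H9.DR
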