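import Pool.Agent.H60.DR.Base2
import Pool.Agent.H9.DR.Not

/-!
# Every rate is at least a constant times `(1 + t)^{-α}`
-/

set_option autoImplicit false

open Filter Topology Set
open scoped InnerProductSpace ENNReal

namespace Pool.Agent.H9.DR

open Pool.Agent.W805.DW
open Pool.Agent.H60.DR (evg Ag Sg dn gg aa ww mu mus gs StPar StNot StNot2)

section
variable {α : ℝ} (hP : PF α)
include hP

/-- the key inequality at the time `t` -/
lemma key_ineq2 (f : ℝ → ℝ) (C : ℝ)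
    (h : ∀ (u v : ℝ → (SS α).domain) (h : IsWaveSol (AA α) (SS α) B u v), ∀ t : ℝ, 0 < t →
    semi (SS α) (u t) (v t : L2 (ℕ × Bool)) ≤
      C * f t * graphNrm (AA α) (SS α) B (u 0) (h.dom 0 le_rfl) (v 0))
    (n : ℕ) (t : ℝ) (ht : 0 < t) :
    Real.exp (-(dn n * t)) ≤ 4 * |C| * |f t| * (dn n)⁻¹ ^ α := by
  have hd := dn_pos n
  have hw : 0 < ‖wv α n‖ := norm_pos_iff.2 (wv_ne_zero hP n)
  have hz := zz_norm_ge hP n
  have hr : 0 ≤ (dn n)⁻¹ ^ α := Real.rpow_nonneg (inv_nonneg.2 hd.le) _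
  have h1 := h (uu α n) (vv α n) (isSol hP n) t ht
  have h2 := semi_ge (α := α) n t
  have hg : graphNrm (AA α) (SS α) B (uu α n 0) ((isSol hP n).dom 0 le_rfl) (vv α n 0) =
    (1 + ‖zz α (dn n)‖) *
      Real.sqrt (‖SS α (wS α n)‖ ^ 2 + ‖wv α n‖ ^ 2 + ‖zz α (dn n)‖ ^ 2 * ‖wv α n‖ ^ 2) :=
    graph_eq hP n
  rw [hg] at h1
  have h3 : Real.sqrt (‖SS α (wS α n)‖ ^ 2 + ‖wv α n‖ ^ 2 + ‖zz α (dn n)‖ ^ 2 * ‖wv α n‖ ^ 2) ≤
      2 * (dn n)⁻¹ ^ α * ‖wv α n‖ := by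
    apply Real.sqrt_le_iff.2
    refine ⟨by positivity, ?_⟩
    have h4 := norm_SwS hP n
    have h5 := total_le hP n
    have h7 := mul_le_mul_of_nonneg_right h5 (sq_nonneg ‖wv α n‖)
    have e : (2 * (dn n)⁻¹ ^ α * ‖wv α n‖) ^ 2 = 4 * ((dn n)⁻¹ ^ α) ^ 2 * ‖wv α n‖ ^ 2 := by ring
    rw [e]
    linarith
  have h8 : ‖zz α (dn n)‖ * Real.exp (-(dn n * t)) * ‖wv α n‖ ≤
      |C| * |f t| * ((2 * ‖zz α (dn n)‖) * (2 * (dn n)⁻¹ ^ α * ‖wv α n‖)) := by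
    refine h2.trans (h1.trans ?_)
    have h9 : C * f t ≤ |C| * |f t| := by
      rw [← abs_mul]; exact le_abs_self _
    calc _ ≤ |C| * |f t| * ((1 + ‖zz α (dn n)‖) *
          Real.sqrt (‖SS α (wS α n)‖ ^ 2 + ‖wv α n‖ ^ 2 + ‖zz α (dn n)‖ ^ 2 * ‖wv α n‖ ^ 2)) :=
          mul_le_mul_of_nonneg_right h9 (by positivity)
      _ ≤ _ := by
          apply mul_le_mul_of_nonneg_left _ (by positivity)
          exact mul_le_mul (by linarith) h3 (Real.sqrt_nonneg _) (by positivity)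
  have h11 : 0 < ‖zz α (dn n)‖ * ‖wv α n‖ := by positivity
  apply le_of_mul_le_mul_right _ h11
  calc Real.exp (-(dn n * t)) * (‖zz α (dn n)‖ * ‖wv α n‖) =
        ‖zz α (dn n)‖ * Real.exp (-(dn n * t)) * ‖wv α n‖ := by ring
    _ ≤ _ := h8
    _ = _ := by ring

end

/-- a time between `t` and `t + 100` of the form `1 / d_n` -/
lemma exists_dn (t : ℝ) (ht : 0 < t) : ∃ n : ℕ, dn n * t ≤ 1 ∧ (dn n)⁻¹ ≤ 100 * (1 + t) := by
  refine ⟨⌊t / 100⌋₊, ?_, ?_⟩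
  · have h1 := Nat.lt_floor_add_one (t / 100)
    have h2 : (0 : ℝ) < 100 * ((⌊t / 100⌋₊ : ℝ) + 1) := by positivity
    unfold dn
    rw [inv_mul_le_iff₀ h2]
    linarith
  · have h1 := Nat.floor_le (show (0 : ℝ) ≤ t / 100 by positivity)
    unfold dn
    rw [inv_inv]
    linarith

theorem stNot2 (h : StPar) : StNot2 := by
  intro α hα f hf
  have hP : PF α := h α hα
  obtain ⟨C, hC⟩ := hf
  have h1 := key_ineq2 hP f C hC
  have hα0 : 0 ≤ α := by linarith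
  have hC0 : 0 < |C| := by
    rw [abs_pos]
    rintro rfl
    have h2 := h1 0 1 one_pos
    rw [abs_zero, mul_zero, zero_mul, zero_mul] at h2
    exact absurd h2 (not_le.2 (Real.exp_pos _))
  refine ⟨Real.exp (-1) / (4 * |C| * 100 ^ α), by positivity, fun t ht => ?_⟩
  obtain ⟨n, hn1, hn2⟩ := exists_dn t ht
  have h2 := h1 n t ht
  have h3 : Real.exp (-1) ≤ Real.exp (-(dn n * t)) := Real.exp_le_exp.2 (by linarith)
  have h4 : (dn n)⁻¹ ^ α ≤ 100 ^ α * (1 + t) ^ α := by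
    rw [← Real.mul_rpow (by norm_num) (by linarith)]
    exact Real.rpow_le_rpow (inv_nonneg.2 (dn_pos n).le) hn2 hα0
  have h5 : 4 * |C| * |f t| * (dn n)⁻¹ ^ α ≤ 4 * |C| * |f t| * (100 ^ α * (1 + t) ^ α) :=
    mul_le_mul_of_nonneg_left h4 (by positivity)
  have h6 := (h3.trans h2).trans h5
  have ht1 : 0 < (1 + t) ^ α := Real.rpow_pos_of_pos (by linarith) _
  rw [Real.rpow_neg (by linarith), div_mul_eq_mul_div, div_le_iff₀ (by positivity),
    ← div_eq_mul_inv, div_le_iff₀ ht1]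
  linarith

end Pool.Agent.H9.DR
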